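import Pool.Agent.MWNP.Stmts

/-!
# Row PHB of block MWNP: basic facts on base (h), period `n`
-/

set_option autoImplicit false

namespace Pool.Agent.MWNP.H27

open Pool.Agent.Helper14_MV Pool.Agent.Helper2_MV Pool.Agent.MVO Pool.Agent.MWL Pool.Agent.MWS
  Pool.Agent.MWF Pool.Agent.MWN
open Pool.Agent.MWNP

theorem one_pow {β : FIC} (hI : Iso3 β) {j : ℕ} (h : RR β [0] (List.replicate j 0)) : j = 1 := by
  have h1 : RR β [0, 1, 0] (List.replicate j 0 ++ ([1] ++ List.replicate j 0)) :=
    h.append ((RR.refl (β := β) [1]).append h)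
  have h2 := congrArg List.length (hI _ h1)
  simp at h2
  omega

theorem zero_pow {β : FIC} (hI : Iso3 β) {j : ℕ} (h : RR β [] (List.replicate j 0)) : j = 0 := by
  have h1 := iso_nil hI h
  simpa using h1

theorem rep_min {β : FIC} (hI : Iso3 β) {p q : ℕ}
    (h : RR β (List.replicate p 0) (List.replicate q 0)) : min p 2 = min q 2 := by
  rcases Nat.lt_or_ge p 2 with hp | hp
  · have hp' : p = 0 ∨ p = 1 := by omega
    rcases hp' with rfl | rfl
    · have := zero_pow hI h
      omega
    · have := one_pow hI h
      omega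
  · rcases Nat.lt_or_ge q 2 with hq | hq
    · have hq' : q = 0 ∨ q = 1 := by omega
      rcases hq' with rfl | rfl
      · have := zero_pow hI h.symm
        omega
      · have := one_pow hI h.symm
        omega
    · omega

theorem flat_const (k c : ℕ) (g : ℕ → List ℕ) (d : ℕ) (hg : g c = [d]) :
    (List.replicate k c).flatMap g = List.replicate k d := by
  induction k with
  | zero => rfl
  | succ k ih =>
    rw [List.replicate_succ, List.flatMap_cons, ih, hg, List.replicate_succ]
    rfl

theorem phb (hndf : NdfStmt) : PhbStmt := by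
  intro n β hB hI
  have hN : NC2 β := by
    intro h
    have h1 := h.append (RR.refl (β := β) [0])
    have h2 := hI _ h1
    revert h2
    decide
  refine ⟨hN, ?_, ?_, ?_, ?_⟩
  · intro u v huv c
    have h1 := huv.filter (fun x => x == c)
    rw [List.filter_beq, List.filter_beq] at h1
    have h2 := h1.sub (fun _ => [0])
    rw [flat_const _ c (fun _ => [0]) 0 rfl, flat_const _ c (fun _ => [0]) 0 rfl] at h2
    exact rep_min hI h2
  · exact ⟨hB.pos, hB.ap, hB.rr⟩
  · exact hndf β hN (fun j hj h => hj (one_pow hI h))
  · intro h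
    have h1 : RR β [0, 2, 0] ([0] ++ 2 :: List.replicate (1 + 2 * n) 0) := h
    have h2 := h1.sub (fun c => if c = 2 then [1] else [c])
    have h3 : RR β [0, 1, 0] (0 :: 1 :: List.replicate (1 + 2 * n) 0) := by
      have e : ([0] ++ 2 :: List.replicate (1 + 2 * n) 0).flatMap
          (fun c => if c = 2 then [1] else [c]) = 0 :: 1 :: List.replicate (1 + 2 * n) 0 := by
        show (if (0 : ℕ) = 2 then [1] else [0]) ++ ((if (2 : ℕ) = 2 then [1] else [2]) ++
          (List.replicate (1 + 2 * n) 0).flatMap (fun c => if c = 2 then [1] else [c])) = _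
        rw [flat_const _ 0 (fun c => if c = 2 then [1] else [c]) 0 rfl]
        rfl
      rw [e] at h2
      exact h2
    have h4 := congrArg List.length (hI _ h3)
    simp at h4
    have := hB.pos
    omega

end Pool.Agent.MWNP.H27
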